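import Mathlib
import Pool.Agent.TH407.MV.Defs
set_option autoImplicit false

/-! MV-10: polar coordinates and the gnomonic radius -/

namespace Pool.Agent.TH126.MV

open MeasureTheory Set Complex
open Pool.Agent.TH407 Pool.Agent.TH407.MV
open scoped ENNReal NNReal Real ComplexConjugate

theorem rp_ang {r θ : ℝ} (hr : 0 < r) (hθ : θ ∈ Ioo (-π) π) :
    AR.ang (r * Real.cos θ, r * Real.sin θ) = θ := by
  have h : (r, θ) ∈ polarCoord.target := by
    rw [polarCoord_target]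
    exact ⟨hr, hθ⟩
  have h2 := polarCoord.right_inv h
  unfold AR.ang
  have h3 : polarCoord.symm (r, θ) = (r * Real.cos θ, r * Real.sin θ) := by
    rw [polarCoord_symm_apply]
  rw [← h3, h2]

theorem rp_sq (r θ : ℝ) : AR.sq (r * Real.cos θ, r * Real.sin θ) = r ^ 2 := by
  unfold AR.sq
  simp only
  nlinarith [Real.sin_sq_add_cos_sq θ]

/-- the radial profile as a function of the radius -/
noncomputable def prr (ε R : ℝ) : ℝ := if ε ^ 2 * R ^ 2 < 1 then MV.eta (gn ε (R ^ 2)) else 0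

/-- the radial integrand -/
noncomputable def KE (ε t w R : ℝ) : ℂ :=
  ((R * prr ε R : ℝ) : ℂ) * cexp (-(I * ((R * w + ps ε (R ^ 2) * t : ℝ) : ℂ)))

theorem eta_nonneg (s : ℝ) : 0 ≤ MV.eta s :=
  mul_nonneg (Real.smoothTransition.nonneg _) (Real.smoothTransition.nonneg _)

theorem eta_le (s : ℝ) : MV.eta s ≤ 1 := by
  have h1 := Real.smoothTransition.le_one (8 * s - 1)
  have h2 := Real.smoothTransition.le_one (2 - s)
  have h3 := Real.smoothTransition.nonneg (8 * s - 1)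
  have h4 := Real.smoothTransition.nonneg (2 - s)
  unfold MV.eta
  nlinarith

theorem eta_zero {s : ℝ} (hs : 2 ≤ s) : MV.eta s = 0 := by
  unfold MV.eta
  rw [Real.smoothTransition.zero_of_nonpos (x := 2 - s) (by linarith), mul_zero]

theorem eta_meas : Measurable MV.eta := by
  unfold MV.eta
  have h : Measurable Real.smoothTransition := Real.smoothTransition.continuous.measurable
  exact (h.comp (by fun_prop)).mul (h.comp (by fun_prop))

theorem prr_bd (ε R : ℝ) : |prr ε R| ≤ 1 := by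
  unfold prr
  split_ifs
  · rw [abs_of_nonneg (eta_nonneg _)]
    exact eta_le _
  · simp

theorem prr_zero {ε R : ℝ} (hR : 2 < R) : prr ε R = 0 := by
  unfold prr
  split_ifs with h
  · apply eta_zero
    unfold gn
    rw [le_div_iff₀ (by linarith)]
    nlinarith [mul_nonneg (sq_nonneg ε) (sq_nonneg R)]
  · rfl

theorem prr_meas (ε : ℝ) : Measurable (prr ε) := by
  unfold prr
  refine Measurable.ite (measurableSet_lt (by fun_prop) (by fun_prop)) ?_ measurable_const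
  refine eta_meas.comp ?_
  unfold gn
  fun_prop

theorem ps_meas (ε : ℝ) : Measurable fun R : ℝ => ps ε (R ^ 2) := by
  unfold ps
  have h : Measurable Real.sqrt := Real.continuous_sqrt.measurable
  exact Measurable.div (by fun_prop) (measurable_const.add (h.comp (by fun_prop)))

/-- the integrand in polar coordinates -/
theorem integrand (ε : ℝ) (g : ℝ → ℂ) (X : ℝ × ℝ) (t : ℝ) {R θ : ℝ} (hR : 0 < R)
    (hθ : θ ∈ Ioo (-π) π) :
    R • (cexp (-(I * ((R * Real.cos θ * X.1 + R * Real.sin θ * X.2 +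
      ps ε (AR.sq (R * Real.cos θ, R * Real.sin θ)) * t : ℝ) : ℂ))) *
      bgp ε g (R * Real.cos θ, R * Real.sin θ)) = KE ε t (dt X θ) R * g θ := by
  unfold bgp pro KE prr dt
  rw [rp_ang hR hθ, rp_sq, Complex.real_smul]
  have e : R * Real.cos θ * X.1 + R * Real.sin θ * X.2 + ps ε (R ^ 2) * t =
    R * (X.1 * Real.cos θ + X.2 * Real.sin θ) + ps ε (R ^ 2) * t := by ring
  rw [e]
  push_cast
  ring

theorem KE_bd (ε t w R : ℝ) (h0 : 0 ≤ R) (h2 : R ≤ 2) : ‖KE ε t w R‖ ≤ 2 := by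
  unfold KE
  have e : -(I * ((R * w + ps ε (R ^ 2) * t : ℝ) : ℂ)) =
    ((-(R * w + ps ε (R ^ 2) * t) : ℝ) : ℂ) * I := by push_cast; ring
  rw [norm_mul, e, Complex.norm_exp_ofReal_mul_I, mul_one, Complex.norm_real, Real.norm_eq_abs,
    abs_mul, abs_of_nonneg h0]
  have := prr_bd ε R
  nlinarith [abs_nonneg (prr ε R)]

theorem KE_zero {ε t w R : ℝ} (hR : 2 < R) : KE ε t w R = 0 := by
  unfold KE
  rw [prr_zero hR]
  simp

theorem KE_zero' {ε t w R : ℝ} (hR : ¬ ε ^ 2 * R ^ 2 < 1) : KE ε t w R = 0 := by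
  unfold KE prr
  rw [if_neg hR]
  simp

theorem KE_meas (ε t : ℝ) (X : ℝ × ℝ) : Measurable fun p : ℝ × ℝ => KE ε t (dt X p.2) p.1 := by
  unfold KE dt
  have h1 : Measurable fun p : ℝ × ℝ => prr ε p.1 := (prr_meas ε).comp measurable_fst
  have h2 : Measurable fun p : ℝ × ℝ => ps ε (p.1 ^ 2) := (ps_meas ε).comp measurable_fst
  fun_prop

/-- the change of variables -/
noncomputable def uu (ε r : ℝ) : ℝ := r / √(1 + ε ^ 2 * r ^ 2)

theorem uu_facts (ε r : ℝ) :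
    1 - ε ^ 2 * uu ε r ^ 2 = 1 / (1 + ε ^ 2 * r ^ 2) := by
  have h : 0 < 1 + ε ^ 2 * r ^ 2 := by positivity
  unfold uu
  rw [div_pow, Real.sq_sqrt h.le]
  field_simp
  ring

theorem uu_gn (ε r : ℝ) : gn ε (uu ε r ^ 2) = r ^ 2 := by
  have h : 0 < 1 + ε ^ 2 * r ^ 2 := by positivity
  unfold gn
  rw [uu_facts]
  unfold uu
  rw [div_pow, Real.sq_sqrt h.le]
  field_simp

theorem uu_ps (ε r : ℝ) : ps ε (uu ε r ^ 2) =
    r ^ 2 / (√(1 + ε ^ 2 * r ^ 2) * (√(1 + ε ^ 2 * r ^ 2) + 1)) := by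
  have h : 0 < 1 + ε ^ 2 * r ^ 2 := by positivity
  have hN : 0 < √(1 + ε ^ 2 * r ^ 2) := Real.sqrt_pos.2 h
  unfold ps
  rw [uu_facts, Real.sqrt_div' _ h.le, Real.sqrt_one]
  unfold uu
  rw [div_pow]
  set N := √(1 + ε ^ 2 * r ^ 2) with hNd
  field_simp

theorem uu_deriv (ε r : ℝ) : HasDerivAt (uu ε)
    (1 / (√(1 + ε ^ 2 * r ^ 2) * (1 + ε ^ 2 * r ^ 2))) r := by
  have h : 0 < 1 + ε ^ 2 * r ^ 2 := by positivity
  have hN : 0 < √(1 + ε ^ 2 * r ^ 2) := Real.sqrt_pos.2 h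
  have h1 : HasDerivAt (fun r : ℝ => 1 + ε ^ 2 * r ^ 2) (ε ^ 2 * (2 * r)) r := by
    have := ((hasDerivAt_pow 2 r).const_mul (ε ^ 2)).const_add 1
    refine this.congr_deriv ?_
    norm_num
  have h2 := h1.sqrt h.ne'
  have h3 := (hasDerivAt_id r).div h2 hN.ne'
  refine (h3.congr_deriv ?_)
  have hsq : √(1 + ε ^ 2 * r ^ 2) ^ 2 = 1 + ε ^ 2 * r ^ 2 := Real.sq_sqrt h.le
  have key : ∀ N : ℝ, 0 < N → N ^ 2 = 1 + ε ^ 2 * r ^ 2 →
      (1 * N - r * (ε ^ 2 * (2 * r) / (2 * N))) / N ^ 2 = 1 / (N * (1 + ε ^ 2 * r ^ 2)) := by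
    intro N hN h
    rw [← h]
    field_simp
    nlinarith
  exact key _ hN hsq

theorem uu_inj (ε : ℝ) : InjOn (uu ε) (Ioi 0) := by
  intro a ha b hb hab
  have h1 := uu_gn ε a
  rw [hab, uu_gn] at h1
  have ha' : (0 : ℝ) < a := ha
  have hb' : (0 : ℝ) < b := hb
  nlinarith [sq_nonneg (a - b)]

theorem uu_image (ε : ℝ) : uu ε '' Ioi 0 = {R : ℝ | 0 < R ∧ ε ^ 2 * R ^ 2 < 1} := by
  ext R
  constructor
  · rintro ⟨r, hr, rfl⟩
    have hr' : (0 : ℝ) < r := hr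
    have h : 0 < 1 + ε ^ 2 * r ^ 2 := by positivity
    refine ⟨?_, ?_⟩
    · unfold uu
      positivity
    · have h1 := uu_facts ε r
      have h2 : 0 < 1 / (1 + ε ^ 2 * r ^ 2) := by positivity
      linarith
  · rintro ⟨h0, h1⟩
    have hd : 0 < 1 - ε ^ 2 * R ^ 2 := by linarith
    have hs : 0 < √(1 - ε ^ 2 * R ^ 2) := Real.sqrt_pos.2 hd
    refine ⟨R / √(1 - ε ^ 2 * R ^ 2), by
      show 0 < R / √(1 - ε ^ 2 * R ^ 2)
      positivity, ?_⟩
    unfold uu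
    have e : 1 + ε ^ 2 * (R / √(1 - ε ^ 2 * R ^ 2)) ^ 2 = 1 / (1 - ε ^ 2 * R ^ 2) := by
      rw [div_pow, Real.sq_sqrt hd.le]
      field_simp
      ring
    rw [e, Real.sqrt_div' _ hd.le, Real.sqrt_one, div_div, mul_one_div, div_self hs.ne', div_one]

theorem radial (ε t w : ℝ) : ∫ R in Ioi (0 : ℝ), KE ε t w R = KG ε t w := by
  have h1 : ∫ R in Ioi (0 : ℝ), KE ε t w R = ∫ R in uu ε '' Ioi 0, KE ε t w R := by
    rw [uu_image]
    apply setIntegral_eq_of_subset_of_forall_sdiff_eq_zero measurableSet_Ioi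
    · rintro R ⟨hR, -⟩
      exact hR
    · rintro R ⟨hR, hR'⟩
      apply KE_zero'
      intro h
      exact hR' ⟨hR, h⟩
  rw [h1, integral_image_eq_integral_abs_deriv_smul measurableSet_Ioi
    (fun r _ => (uu_deriv ε r).hasDerivWithinAt) (uu_inj ε)]
  unfold KG
  refine setIntegral_congr_fun measurableSet_Ioi ?_
  intro r hr
  have hr' : (0 : ℝ) < r := hr
  have h : 0 < 1 + ε ^ 2 * r ^ 2 := by positivity
  have hN : 0 < √(1 + ε ^ 2 * r ^ 2) := Real.sqrt_pos.2 h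
  have hsq : √(1 + ε ^ 2 * r ^ 2) ^ 2 = 1 + ε ^ 2 * r ^ 2 := Real.sq_sqrt h.le
  show |1 / (√(1 + ε ^ 2 * r ^ 2) * (1 + ε ^ 2 * r ^ 2))| • KE ε t w (uu ε r) = _
  have hlt : ε ^ 2 * uu ε r ^ 2 < 1 := by
    have h1 := uu_facts ε r
    have h2 : 0 < 1 / (1 + ε ^ 2 * r ^ 2) := by positivity
    linarith
  unfold KE prr
  rw [if_pos hlt, uu_gn, uu_ps, abs_of_pos (by positivity), Complex.real_smul, ← mul_assoc,
    ← Complex.ofReal_mul]
  have key : ∀ N : ℝ, 0 < N → N ^ 2 = 1 + ε ^ 2 * r ^ 2 →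
      1 / (N * (1 + ε ^ 2 * r ^ 2)) * (r / N * MV.eta (r ^ 2)) =
        r * MV.eta (r ^ 2) / (1 + ε ^ 2 * r ^ 2) ^ 2 := by
    intro N hN h
    rw [← h]
    field_simp
  refine congrArg₂ (fun a b : ℂ => a * b) (congrArg _ (key _ hN hsq)) ?_
  have e2 : uu ε r * w = r * w / √(1 + ε ^ 2 * r ^ 2) := by
    unfold uu
    ring
  rw [e2]

theorem repr : Repr := by
  intro ε g X t hε hg ⟨B, hB⟩
  have hB0 : 0 ≤ B := (norm_nonneg _).trans (hB 0)
  unfold EP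
  rw [← integral_comp_polarCoord_symm]
  rw [polarCoord_target]
  have h1 : ∫ p in Ioi (0 : ℝ) ×ˢ Ioo (-π) π, p.1 • (fun x : ℝ × ℝ =>
      cexp (-(I * ((x.1 * X.1 + x.2 * X.2 + ps ε (AR.sq x) * t : ℝ) : ℂ))) * bgp ε g x)
        (polarCoord.symm p) =
      ∫ p in Ioi (0 : ℝ) ×ˢ Ioo (-π) π, KE ε t (dt X p.2) p.1 * g p.2 := by
    refine setIntegral_congr_fun (measurableSet_Ioi.prod measurableSet_Ioo) ?_
    rintro ⟨R, θ⟩ ⟨hR, hθ⟩
    exact integrand ε g X t hR hθ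
  rw [h1]
  have hsub : ∀ S : Set (ℝ × ℝ), ∫ p in Ioi (0 : ℝ) ×ˢ Ioo (-π) π, KE ε t (dt X p.2) p.1 * g p.2 =
      ∫ p in Ioc (0 : ℝ) 2 ×ˢ Ioo (-π) π, KE ε t (dt X p.2) p.1 * g p.2 := by
    intro _
    apply setIntegral_eq_of_subset_of_forall_sdiff_eq_zero
      (measurableSet_Ioi.prod measurableSet_Ioo)
    · rintro ⟨R, θ⟩ ⟨hR, hθ⟩
      exact ⟨hR.1, hθ⟩
    · rintro ⟨R, θ⟩ ⟨⟨hR, hθ⟩, h2⟩
      have : 2 < R := by
        by_contra h
        exact h2 ⟨⟨hR, not_lt.1 h⟩, hθ⟩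
      show KE ε t (dt X θ) R * g θ = 0
      rw [KE_zero this, zero_mul]
  rw [hsub ∅]
  have hmeas : Measurable fun p : ℝ × ℝ => KE ε t (dt X p.2) p.1 * g p.2 :=
    (KE_meas ε t X).mul (hg.comp measurable_snd)
  have hint : IntegrableOn (fun p : ℝ × ℝ => KE ε t (dt X p.2) p.1 * g p.2)
      (Ioc (0 : ℝ) 2 ×ˢ Ioo (-π) π) := by
    apply Measure.integrableOn_of_bounded (M := 2 * B)
    · rw [Measure.volume_eq_prod, Measure.prod_prod]
      exact ENNReal.mul_ne_top (by simp) (by simp)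
    · exact hmeas.aestronglyMeasurable
    · refine (ae_restrict_iff' (measurableSet_Ioc.prod measurableSet_Ioo)).2 (ae_of_all _ ?_)
      rintro ⟨R, θ⟩ ⟨hR, hθ⟩
      show ‖KE ε t (dt X θ) R * g θ‖ ≤ 2 * B
      rw [norm_mul]
      exact mul_le_mul (KE_bd _ _ _ _ hR.1.le hR.2) (hB θ) (norm_nonneg _) (by norm_num)
  rw [IntegrableOn, Measure.volume_eq_prod, ← Measure.prod_restrict] at hint
  rw [Measure.volume_eq_prod, ← Measure.prod_restrict, integral_prod_symm _ hint]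
  refine integral_congr_ae (ae_of_all _ ?_)
  intro θ
  show ∫ R in Ioc (0 : ℝ) 2, KE ε t (dt X θ) R * g θ = KG ε t (dt X θ) * g θ
  rw [integral_mul_const, ← radial]
  congr 1
  symm
  apply setIntegral_eq_of_subset_of_forall_sdiff_eq_zero measurableSet_Ioi
  · intro R hR
    exact hR.1
  · rintro R ⟨hR, h2⟩
    have : 2 < R := by
      by_contra h
      exact h2 ⟨hR, not_lt.1 h⟩
    exact KE_zero this

end Pool.Agent.TH126.MV
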